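import Pool.Agent.Helper18.RD.Stmts6
import Pool.Agent.Helper8.RD.SUM

/-! Project RD 6 (MP_b7477f_nt): row SU6, mean square over odd `r` of a sum of characters. -/

set_option autoImplicit false

namespace Pool.Agent.Helper18.RD

open Finset

theorem st_SU6 (hP : ST_PER) : ST_SU6 := by
  intro ι _ T Y K0 Z hT
  have e1 : ∑ r ∈ (Icc 1 Z).filter (fun r => Odd r), (∑ t ∈ T, jacobiSym (Y t) r) ^ 2 =
      ∑ x ∈ T ×ˢ T, ∑ r ∈ (Icc 1 Z).filter (fun r => Odd r), jacobiSym (Y x.1 * Y x.2) r := by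
    rw [sum_comm]
    refine sum_congr rfl fun r _ => ?_
    rw [sq, sum_mul_sum, sum_product]
    refine sum_congr rfl fun t _ => sum_congr rfl fun t' _ => ?_
    rw [jacobiSym.mul_left]
  rw [e1]
  have hZ : (0 : ℤ) ≤ (Z : ℤ) := by positivity
  have hb : ∀ x ∈ T ×ˢ T, ∑ r ∈ (Icc 1 Z).filter (fun r => Odd r), jacobiSym (Y x.1 * Y x.2) r ≤
      (if IsSquare (Y x.1 * Y x.2) then (Z : ℤ) else 0) + 4 * (K0 : ℤ) ^ 2 := by
    intro x hx
    rw [mem_product] at hx
    obtain ⟨y0, y1⟩ := hT _ hx.1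
    obtain ⟨y0', y1'⟩ := hT _ hx.2
    refine (le_abs_self _).trans ?_
    by_cases hc : IsSquare (Y x.1 * Y x.2)
    · rw [if_pos hc]
      have := abs_sum_jac_le (Y x.1 * Y x.2) Z
      have hK : (0 : ℤ) ≤ 4 * (K0 : ℤ) ^ 2 := by positivity
      linarith
    · rw [if_neg hc, zero_add]
      refine (hP _ (mul_ne_zero y0 y0') hc Z).trans ?_
      rw [abs_mul]
      have : |Y x.1| * |Y x.2| ≤ (K0 : ℤ) * K0 := mul_le_mul y1 y1' (abs_nonneg _) (by positivity)
      nlinarith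
  refine (sum_le_sum hb).trans ?_
  rw [sum_add_distrib, ← sum_filter, sum_const, sum_const, card_product, nsmul_eq_mul,
    nsmul_eq_mul]
  push_cast
  apply le_of_eq
  ring

end Pool.Agent.Helper18.RD
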