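import Pool.Agent.Helper18.RD.Stmts6

/-! Project RD 6 (MP_b7477f_nt): row MAIN6, from PL and DPN. -/

set_option autoImplicit false

namespace Pool.Agent.Helper18.RD

open Finset

theorem st_MAIN6 (hPL : ST_PL) (hDP : ST_DPN) : ST_MAIN6 := by
  classical
  intro ε hε
  obtain ⟨c0, hc0, hPL⟩ := hPL
  obtain ⟨C1, hC1, hPL⟩ := hPL ε hε
  obtain ⟨ε', hε'⟩ : ∃ ε' : ℝ, ε' = min (ε / 3) (1 / 2) := ⟨_, rfl⟩
  have hε'0 : 0 < ε' := by rw [hε']; exact lt_min (by linarith) (by norm_num)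
  have hε'1 : ε' ≤ ε / 3 := by rw [hε']; exact min_le_left _ _
  have hε'2 : ε' ≤ 1 / 2 := by rw [hε']; exact min_le_right _ _
  obtain ⟨C2, κ, hC2, hκ, hDP⟩ := hDP ε' hε'0
  obtain ⟨δ, hδ⟩ : ∃ δ : ℝ, δ = ε / (3 * κ) := ⟨_, rfl⟩
  have hδ0 : 0 < δ := by rw [hδ]; positivity
  obtain ⟨K0, hK0⟩ : ∃ K0 : ℝ, K0 = 1 + (1 + 1 / δ) / c0 := ⟨_, rfl⟩
  have hK0' : 0 ≤ (1 + 1 / δ) / c0 := by positivity
  have hK01 : 1 ≤ K0 := by rw [hK0]; linarith
  obtain ⟨K, hK⟩ : ∃ K : ℝ, K = K0 ^ κ := ⟨_, rfl⟩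
  have hK1 : 1 ≤ K := by rw [hK]; exact Real.one_le_rpow hK01 hκ.le
  obtain ⟨C3, hC3⟩ : ∃ C3 : ℝ, C3 = (K + 1) ^ (3 / ε) := ⟨_, rfl⟩
  have hC30 : 0 < C3 := by rw [hC3]; positivity
  refine ⟨2 * C1 + C2 + C3, ?_⟩
  intro N q a y hN hq hy hcop hNP
  have hNr : (1 : ℝ) ≤ N := by exact_mod_cast hN
  have hN0 : (0 : ℝ) < N := by linarith
  have hyr : (1 : ℝ) ≤ y := by exact_mod_cast hy
  have hE1 : 1 ≤ (N : ℝ) ^ ε := Real.one_le_rpow hNr hε.le
  have hE0 : 0 < (N : ℝ) ^ ε := by linarith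
  have hsq1 : 1 ≤ Real.sqrt N := Real.one_le_sqrt.2 hNr
  have hsqy : 1 ≤ Real.sqrt y := Real.one_le_sqrt.2 hyr
  have hSS : ((range N).filter (fun n => IsSquare (q * n + a))) = SS N q a := rfl
  rw [hSS]
  have hRN : ((SS N q a).card : ℝ) ≤ N := by
    have h1 : (SS N q a).card ≤ N := by
      calc (SS N q a).card ≤ (range N).card := card_filter_le _ _
        _ = N := card_range N
    exact_mod_cast h1
  have hA : 0 ≤ (N : ℝ) ^ ε * Real.sqrt N := by positivity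
  have hB : 0 ≤ (N : ℝ) ^ ε * y := by positivity
  have hAB : 1 ≤ (N : ℝ) ^ ε * (Real.sqrt N + y) := by
    have h2 : (1 : ℝ) ≤ Real.sqrt N + y := by linarith
    calc (1 : ℝ) = 1 * 1 := by ring
      _ ≤ (N : ℝ) ^ ε * (Real.sqrt N + y) := mul_le_mul hE1 h2 (by norm_num) hE0.le
  -- small `N`
  by_cases hs : (N : ℝ) ^ (ε / 3) < K + 1
  · have hNC : (N : ℝ) ≤ C3 := by
      have h1 : (N : ℝ) = ((N : ℝ) ^ (ε / 3)) ^ (3 / ε) := by
        rw [← Real.rpow_mul hN0.le]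
        have : ε / 3 * (3 / ε) = 1 := by field_simp
        rw [this, Real.rpow_one]
      rw [h1, hC3]
      exact Real.rpow_le_rpow (by positivity) hs.le (by positivity)
    have h2 : C3 ≤ C3 * ((N : ℝ) ^ ε * (Real.sqrt N + y)) := le_mul_of_one_le_right hC30.le hAB
    nlinarith [mul_nonneg hC1.le hA, mul_nonneg hC1.le hB, mul_nonneg hC2.le hA,
      mul_nonneg hC2.le hB]
  rw [not_lt] at hs
  obtain ⟨P, hPdef⟩ : ∃ P : ℕ, P = ⌈Real.sqrt N⌉₊ := ⟨_, rfl⟩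
  have hP1 : Real.sqrt N ≤ P := by rw [hPdef]; exact Nat.le_ceil _
  have hP2 : (P : ℝ) ≤ 2 * Real.sqrt N := by
    rw [hPdef]
    have := (Nat.ceil_lt_add_one (Real.sqrt_nonneg (N : ℝ))).le
    linarith
  have hsq : Real.sqrt N ^ 2 = N := Real.sq_sqrt hN0.le
  have hNP2 : N ≤ P ^ 2 := by
    have : (N : ℝ) ≤ (P : ℝ) ^ 2 := by
      rw [← hsq]
      exact pow_le_pow_left₀ (Real.sqrt_nonneg _) hP1 2
    exact_mod_cast this
  have hPN : P ≤ N := by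
    rw [hPdef]
    refine Nat.ceil_le.2 ?_
    nlinarith
  by_cases hcase : C1 * (N : ℝ) ^ ε * P ≤ (SS N q a).card
  · have hpl := hPL N q a P hN hq hcop hNP2 hPN hcase
    have hNδ1 : 1 ≤ (N : ℝ) ^ δ := Real.one_le_rpow hNr hδ0.le
    have hlog0 : 0 ≤ Real.log (N : ℝ) := Real.log_natCast_nonneg N
    have hlog : 1 + Real.log N ≤ (1 + 1 / δ) * (N : ℝ) ^ δ := by
      have := Real.log_le_rpow_div hN0.le hδ0
      have h3 : (N : ℝ) ^ δ / δ = 1 / δ * (N : ℝ) ^ δ := by ring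
      rw [h3] at this
      linarith
    have hD1 : 1 ≤ K0 * (N : ℝ) ^ δ := by
      calc (1 : ℝ) = 1 * 1 := by ring
        _ ≤ K0 * (N : ℝ) ^ δ := mul_le_mul hK01 hNδ1 (by norm_num) (by linarith)
    have hPP0 : (0 : ℝ) ≤ (PP q P).card := by positivity
    have hPD : (P : ℝ) ≤ K0 * (N : ℝ) ^ δ * (PP q P).card := by
      have hl0 : 0 < 1 + Real.log (N : ℝ) := by linarith
      rw [div_le_iff₀ hl0] at hpl
      have h4 : (P : ℝ) ≤ (1 + Real.log N) / c0 * (PP q P).card := by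
        rw [div_mul_eq_mul_div, le_div_iff₀ hc0]
        linarith
      have h5 : (1 + Real.log (N : ℝ)) / c0 ≤ K0 * (N : ℝ) ^ δ := by
        calc (1 + Real.log (N : ℝ)) / c0 ≤ ((1 + 1 / δ) * (N : ℝ) ^ δ) / c0 :=
              div_le_div_of_nonneg_right hlog hc0.le
          _ = (1 + 1 / δ) / c0 * (N : ℝ) ^ δ := by ring
          _ ≤ K0 * (N : ℝ) ^ δ := by
              apply mul_le_mul_of_nonneg_right _ (by linarith)
              rw [hK0]
              linarith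
      exact h4.trans (mul_le_mul_of_nonneg_right h5 hPP0)
    have hDκ : (K0 * (N : ℝ) ^ δ) ^ κ = K * (N : ℝ) ^ (ε / 3) := by
      rw [Real.mul_rpow (by linarith) (by linarith), ← Real.rpow_mul hN0.le, hK]
      congr 2
      rw [hδ]
      field_simp
    have hE3 : 1 ≤ (N : ℝ) ^ (ε / 3) := Real.one_le_rpow hNr (by linarith)
    have hεP : (N : ℝ) ^ ε' ≤ P := by
      calc (N : ℝ) ^ ε' ≤ (N : ℝ) ^ (1 / 2 : ℝ) := Real.rpow_le_rpow_of_exponent_le hNr hε'2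
        _ = Real.sqrt N := (Real.sqrt_eq_rpow _).symm
        _ ≤ P := hP1
    have hEE : (N : ℝ) ^ ε' ≤ (N : ℝ) ^ (ε / 3) := Real.rpow_le_rpow_of_exponent_le hNr hε'1
    have hE333 : (N : ℝ) ^ ε = (N : ℝ) ^ (ε / 3) * (N : ℝ) ^ (ε / 3) * (N : ℝ) ^ (ε / 3) := by
      rw [← Real.rpow_add hN0, ← Real.rpow_add hN0]
      congr 1
      ring
    obtain ⟨X, hX⟩ : ∃ X : ℝ, X = (N : ℝ) ^ (ε / 3) := ⟨_, rfl⟩
    rw [← hX] at hs hDκ hE3 hEE hE333
    have hXX : K * X * (N : ℝ) ^ ε' + 1 ≤ (N : ℝ) ^ ε := by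
      have h6 : K * X * (N : ℝ) ^ ε' ≤ K * X * X := mul_le_mul_of_nonneg_left hEE (by positivity)
      have h7 : (1 : ℝ) ≤ X * X := by nlinarith
      have h8 : (K + 1) * (X * X) ≤ X * (X * X) := mul_le_mul_of_nonneg_right hs (by positivity)
      rw [hE333]
      nlinarith
    have hcard : (((Icc 1 y).filter (fun p => p.Prime ∧ ¬ p ∣ q)).card : ℝ) ≤
        (NP q y).card + 1 := by
      have h9 : (Icc 1 y).filter (fun p => p.Prime ∧ ¬ p ∣ q) ⊆ insert 2 (NP q y) := by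
        intro p hp
        rw [mem_filter] at hp
        rw [mem_insert]
        by_cases h2 : p = 2
        · exact Or.inl h2
        · refine Or.inr ?_
          unfold NP
          rw [mem_filter]
          exact ⟨hp.1, hp.2.1, h2, hp.2.2⟩
      have h10 := (card_le_card h9).trans (card_insert_le _ _)
      exact_mod_cast h10
    have hcond : (K0 * (N : ℝ) ^ δ) ^ κ * (N : ℝ) ^ ε' * Real.sqrt y ≤ (NP q y).card := by
      rw [hDκ]
      have h11 := hNP.trans hcard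
      have h12 : (K * X * (N : ℝ) ^ ε' + 1) * Real.sqrt y ≤ (N : ℝ) ^ ε * Real.sqrt y :=
        mul_le_mul_of_nonneg_right hXX (by linarith)
      linarith
    have hfin := hDP N q a P y (K0 * (N : ℝ) ^ δ) hN hq hy hcop hεP hD1 hPD hcond
    rw [hDκ] at hfin
    have h13 : K * X * (N : ℝ) ^ ε' * y ≤ (N : ℝ) ^ ε * y :=
      mul_le_mul_of_nonneg_right (by linarith) (by linarith)
    have h14 : C2 * (K * X * (N : ℝ) ^ ε' * y) ≤ C2 * ((N : ℝ) ^ ε * y) :=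
      mul_le_mul_of_nonneg_left h13 hC2.le
    nlinarith [mul_nonneg hC1.le hA, mul_nonneg hC1.le hB, mul_nonneg hC2.le hA,
      mul_nonneg hC30.le hA, mul_nonneg hC30.le hB]
  · rw [not_le] at hcase
    have h15 : C1 * (N : ℝ) ^ ε * P ≤ C1 * (N : ℝ) ^ ε * (2 * Real.sqrt N) :=
      mul_le_mul_of_nonneg_left hP2 (by positivity)
    nlinarith [mul_nonneg hC1.le hA, mul_nonneg hC1.le hB, mul_nonneg hC2.le hA,
      mul_nonneg hC2.le hB, mul_nonneg hC30.le hA, mul_nonneg hC30.le hB]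

end Pool.Agent.Helper18.RD
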